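import Pool.Agent.L0h31.GT.Stm

set_option autoImplicit false

open MeasureTheory Filter Topology

namespace Pool.Agent.L0h62.GT

open Pool.Agent.L0h31.GT

/-! ### closedness and boundedness -/

theorem closed_aux : ∀ m : ℕ,
    IsClosed {p : (Tri m → ℝ) × (Fin (m + 1) → ℝ) | p.1 ∈ GTp m p.2}
  | 0 => by
      have : {p : (Tri 0 → ℝ) × (Fin (0 + 1) → ℝ) | p.1 ∈ GTp 0 p.2} = Set.univ := by
        ext p
        simp [GTp]
      rw [this]
      exact isClosed_univ
  | (m + 1) => by
      have ih := closed_aux m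
      have h1 : IsClosed {p : (Tri (m + 1) → ℝ) × (Fin (m + 1 + 1) → ℝ) |
          ∀ j : Fin (m + 1), p.2 j.castSucc ≤ p.1 (Sum.inr j) ∧ p.1 (Sum.inr j) ≤ p.2 j.succ} := by
        rw [Set.ofPred_forall]
        refine isClosed_iInter fun j => ?_
        refine IsClosed.and ?_ ?_
        · refine isClosed_le ?_ ?_
          · fun_prop
          · exact (continuous_apply (Sum.inr j : Tri (m + 1))).comp continuous_fst
        · refine isClosed_le ?_ ?_
          · exact (continuous_apply (Sum.inr j : Tri (m + 1))).comp continuous_fst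
          · fun_prop
      have h2 : Continuous (fun p : (Tri (m + 1) → ℝ) × (Fin (m + 1 + 1) → ℝ) =>
          (((fun t : Tri m => p.1 (Sum.inl t)), (fun j : Fin (m + 1) => p.1 (Sum.inr j))) :
            (Tri m → ℝ) × (Fin (m + 1) → ℝ))) := by
        refine Continuous.prodMk ?_ ?_
        · exact continuous_pi fun t =>
            (continuous_apply (Sum.inl t : Tri (m + 1))).comp continuous_fst
        · exact continuous_pi fun t =>
            (continuous_apply (Sum.inr t : Tri (m + 1))).comp continuous_fst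
      exact h1.inter (ih.preimage h2)

theorem closed_GTp (m : ℕ) (l : Fin (m + 1) → ℝ) : IsClosed (GTp m l) := by
  have h := closed_aux m
  have h2 : Continuous (fun x : Tri m → ℝ => ((x, l) : (Tri m → ℝ) × (Fin (m + 1) → ℝ))) := by
    fun_prop
  exact h.preimage h2

theorem mono_IB {n : ℕ} {l : Fin (n + 1) → ℝ} {μ : Fin n → ℝ} (h : μ ∈ IB l) : Monotone μ := by
  cases n with
  | zero => intro a; exact a.elim0
  | succ n =>
    rw [Fin.monotone_iff_le_succ]
    intro i
    have h1 := (h i.castSucc).2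
    have h2 := (h i.succ).1
    have h3 : (i.succ).castSucc = (i.castSucc).succ := by
      ext; simp
    rw [h3] at h2
    exact h1.trans h2

theorem bdd_GTp : ∀ (m : ℕ) (l : Fin (m + 1) → ℝ), Monotone l → ∀ x ∈ GTp m l, ∀ t,
    l 0 ≤ x t ∧ x t ≤ l (Fin.last m)
  | 0, _, _, _, _, t => t.elim
  | (m + 1), l, hl, x, hx, t => by
      have h1 := hx.1
      have h2 := hx.2
      have hm : Monotone (fun j : Fin (m + 1) => x (Sum.inr j)) := mono_IB (l := l) h1
      rcases t with t | j
      · have := bdd_GTp m _ hm _ h2 t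
        have h3 := (h1 0).1
        have h4 := (h1 (Fin.last m)).2
        constructor
        · have : l (Fin.castSucc 0) ≤ x (Sum.inl t) := h3.trans this.1
          simpa using this
        · exact this.2.trans (h4.trans (hl (Fin.le_last _)))
      · exact ⟨(hl (Fin.zero_le _)).trans (h1 j).1, (h1 j).2.trans (hl (Fin.le_last _))⟩

theorem compact_GTp (m : ℕ) (l : Fin (m + 1) → ℝ) (hl : Monotone l) : IsCompact (GTp m l) := by
  have h1 : IsCompact (Set.Icc (fun _ : Tri m => l 0) (fun _ : Tri m => l (Fin.last m))) :=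
    isCompact_Icc
  refine h1.of_isClosed_subset (closed_GTp m l) ?_
  intro x hx
  have := bdd_GTp m l hl x hx
  exact ⟨fun t => (this t).1, fun t => (this t).2⟩

theorem compact_IB {n : ℕ} (l : Fin (n + 1) → ℝ) : IsCompact (IB l) := by
  have h1 : IB l = Set.Icc (fun j : Fin n => l j.castSucc) (fun j : Fin n => l j.succ) := by
    ext μ
    constructor
    · intro h
      exact ⟨fun j => (h j).1, fun j => (h j).2⟩
    · intro h j
      exact ⟨h.1 j, h.2 j⟩
  rw [h1]
  exact isCompact_Icc

theorem cont_vd {n : ℕ} : Continuous (vd : (Fin n → ℝ) → ℝ) := by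
  unfold vd
  refine Continuous.matrix_det ?_
  unfold Matrix.vandermonde
  refine continuous_matrix fun i j => ?_
  simp only [Matrix.of_apply]
  fun_prop

theorem cont_p1 {n : ℕ} : Continuous (p1 : (Fin n → ℝ) → ℝ) := by
  unfold p1
  fun_prop

theorem cont_p2 {n : ℕ} : Continuous (p2 : (Fin n → ℝ) → ℝ) := by
  unfold p2
  fun_prop

theorem cont_St {m : ℕ} : Continuous (St : (Tri m → ℝ) → ℝ) := by
  unfold St
  fun_prop

theorem St_elim {m : ℕ} (y : Tri m → ℝ) (μ : Fin (m + 1) → ℝ) :
    St (m := m + 1) (Sum.elim y μ) = St y + p1 μ := by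
  unfold St p1
  exact Fintype.sum_sum_type (α₁ := Tri m) (α₂ := Fin (m + 1)) (Sum.elim y μ)

theorem sf_succ (m : ℕ) : sf (m + 1) = sf m * (m + 1).factorial := by
  unfold sf
  rw [Finset.prod_range_succ]

theorem sf_pos (m : ℕ) : (sf m : ℝ) ≠ 0 := by
  unfold sf
  rw [Nat.cast_prod]
  exact Finset.prod_ne_zero_iff.mpr fun k _ => by
    exact_mod_cast (Nat.factorial_pos k).ne'

/-- the three integrals -/
def V3 (m : ℕ) (l : Fin (m + 1) → ℝ) : Prop :=
  (∫ _x in GTp m l, (1 : ℝ)) = vd l / sf m ∧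
  (∫ x in GTp m l, St x) = (m / 2 : ℝ) * p1 l * (vd l / sf m) ∧
  (∫ x in GTp m l, St x ^ 2) =
    ((m / 2 : ℝ) ^ 2 * p1 l ^ 2 + (1 / 12) * ((m + 1) * p2 l - p1 l ^ 2)) * (vd l / sf m)

theorem V3_zero (l : Fin (0 + 1) → ℝ) : V3 0 l := by
  have hS : ∀ x : Tri 0 → ℝ, St x = 0 := by
    intro x
    unfold St
    exact Finset.sum_eq_zero fun t _ => t.elim
  have hv : vd l = 1 := by
    unfold vd
    rw [Matrix.det_succ_row_zero]
    simp [Matrix.vandermonde]
  have h1 : (∫ _x in GTp 0 l, (1 : ℝ)) = 1 := by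
    have h0 : IsEmpty (Tri 0) := inferInstanceAs (IsEmpty Empty)
    have h1 : GTp 0 l = Set.univ := rfl
    have h2 : (volume : Measure (Tri 0 → ℝ)) = Measure.dirac isEmptyElim :=
      Measure.pi_of_empty _ _
    rw [h1, Measure.restrict_univ, h2, integral_dirac]
  refine ⟨?_, ?_, ?_⟩
  · rw [h1, hv]; simp [sf]
  · simp [hS]
  · simp only [hS]
    have h2 : p2 l = l 0 ^ 2 := by unfold p2; simp
    have h3 : p1 l = l 0 := by unfold p1; simp
    rw [h2, h3]
    simp

theorem V3_succ (hR : S_ROW) (hC : S_REC) (m : ℕ)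
    (ih : ∀ l : Fin (m + 1) → ℝ, Monotone l → V3 m l) (l : Fin (m + 1 + 1) → ℝ) (hl : Monotone l) :
    V3 (m + 1) l := by
  obtain ⟨r0, r1, r2, r3⟩ := hR m l hl
  have hsf := sf_pos m
  have hf : ((m + 1).factorial : ℝ) ≠ 0 := by exact_mod_cast (Nat.factorial_pos _).ne'
  have hmeas : MeasurableSet (IB l) := (compact_IB l).measurableSet
  have iI : ∀ F : (Fin (m + 1) → ℝ) → ℝ, Continuous F → IntegrableOn F (IB l) := fun F hF =>
    hF.continuousOn.integrableOn_compact (compact_IB l)
  have iG : ∀ μ : Fin (m + 1) → ℝ, Monotone μ → ∀ F : (Tri m → ℝ) → ℝ, Continuous F →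
      IntegrableOn F (GTp m μ) := fun μ hμ F hF =>
    hF.continuousOn.integrableOn_compact (compact_GTp m μ hμ)
  have c1 := cont_p1 (n := m + 1)
  have c2 := cont_p2 (n := m + 1)
  have cv := cont_vd (n := m + 1)
  have cS := cont_St (m := m)
  have cS' := cont_St (m := m + 1)
  have sfs : (sf (m + 1) : ℝ) = sf m * (m + 1).factorial := by
    rw [sf_succ]; push_cast; ring
  refine ⟨?_, ?_, ?_⟩
  · rw [hC m l (fun _ => 1) hl continuous_const]
    have e : ∀ μ ∈ IB l, (∫ _y in GTp m μ, (1 : ℝ)) = (1 / sf m) * vd μ := by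
      intro μ hμ
      rw [(ih μ (mono_IB hμ)).1]; ring
    rw [setIntegral_congr_fun hmeas e, integral_const_mul, r0, sfs]
    field_simp
  · rw [hC m l St hl cS']
    have e : ∀ μ ∈ IB l, (∫ y in GTp m μ, St (m := m + 1) (Sum.elim y μ)) =
        ((m / 2 + 1) / sf m) * (vd μ * p1 μ) := by
      intro μ hμ
      have hμ' := mono_IB hμ
      obtain ⟨a, b, c⟩ := ih μ hμ'
      have : (∫ y in GTp m μ, St (m := m + 1) (Sum.elim y μ)) =
          ∫ y in GTp m μ, (St y + p1 μ * 1) := by
        refine integral_congr_ae (Filter.Eventually.of_forall fun y => ?_)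
        simp only [mul_one]
        exact St_elim y μ
      rw [this, integral_add (iG μ hμ' _ cS) (iG μ hμ' _ continuous_const), integral_const_mul, a, b]
      field_simp
    rw [setIntegral_congr_fun hmeas e, integral_const_mul, r1, sfs]
    push_cast
    field_simp
  · rw [hC m l (fun x => St x ^ 2) hl (cS'.pow 2)]
    have e : ∀ μ ∈ IB l, (∫ y in GTp m μ, St (m := m + 1) (Sum.elim y μ) ^ 2) =
        ((((m : ℝ) / 2 + 1) ^ 2 - (m + 2) / 12) / sf m) * (vd μ * ((p1 μ ^ 2 - p2 μ) / 2)) +
        ((((m : ℝ) / 2 + 1) ^ 2 + m / 12) / sf m) * (vd μ * ((p1 μ ^ 2 + p2 μ) / 2)) := by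
      intro μ hμ
      have hμ' := mono_IB hμ
      obtain ⟨a, b, c⟩ := ih μ hμ'
      have : (∫ y in GTp m μ, St (m := m + 1) (Sum.elim y μ) ^ 2) =
          ∫ y in GTp m μ, ((St y ^ 2 + (2 * p1 μ) * St y) + p1 μ ^ 2 * 1) := by
        refine integral_congr_ae (Filter.Eventually.of_forall fun y => ?_)
        simp only [St_elim]
        ring
      have q1 : Continuous (fun y : Tri m → ℝ => St y ^ 2) := cS.pow 2
      have q2 : Continuous (fun y : Tri m → ℝ => (2 * p1 μ) * St y) := cS.const_mul _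
      have q3 : Continuous (fun y : Tri m → ℝ => St y ^ 2 + (2 * p1 μ) * St y) := q1.add q2
      have q4 : Continuous (fun _ : Tri m → ℝ => p1 μ ^ 2 * (1 : ℝ)) := continuous_const
      rw [this, integral_add (iG μ hμ' _ q3) (iG μ hμ' _ q4), integral_add (iG μ hμ' _ q1)
        (iG μ hμ' _ q2), integral_const_mul, integral_const_mul, a, b, c]
      field_simp
      ring
    rw [setIntegral_congr_fun hmeas e, integral_add ((iI _ (by fun_prop)).const_mul _)
      ((iI _ (by fun_prop)).const_mul _), integral_const_mul, integral_const_mul, r2, r3, sfs]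
    push_cast
    field_simp
    ring

theorem t_VOL (hR : S_ROW) (hC : S_REC) : S_VOL := by
  intro m
  induction m with
  | zero => intro l _; exact V3_zero l
  | succ m ih => intro l hl; exact V3_succ hR hC m ih l hl


end Pool.Agent.L0h62.GT
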